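import Mathlib
import Pool.Agent.Helper9.NS
import Pool.Agent.Helper70.BQ.Defs
import Pool.Agent.Helper83.VF.Kill
import Pool.Agent.Helper94.VQ.MoveSum
import Pool.Agent.Helper94.VQ.Quot

/-!
# Balanced product-quotients, block A2: elementary properties of the components
-/

set_option autoImplicit false
set_option linter.unusedSectionVars false

namespace BQ

open VC VQ VP VF Function IntermediateField

universe u

namespace A2

/-- changing one coordinate by a bijection -/
def updEquiv {n : ℕ} {A : Type*} (i : Fin n) (φ : A ≃ A) : (Fin n → A) ≃ (Fin n → A) where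
  toFun u := update u i (φ (u i))
  invFun u := update u i (φ.symm (u i))
  left_inv u := by simp
  right_inv u := by simp

lemma reindex {k A : Type*} [Field k] [Fintype A] {n : ℕ} (i : Fin n) (φ : A ≃ A) (z : k)
    (κ : Fin n → A → k) (Ψ Ψ' : (Fin n → A) → k)
    (h : ∀ u, κ i (u i) * Ψ' u = z * (κ i (φ (u i)) * Ψ (update u i (φ (u i))))) :
    ∑ u, (∏ l, κ l (u l)) * Ψ' u = z * ∑ u, (∏ l, κ l (u l)) * Ψ u := by
  rw [Finset.mul_sum]
  refine Fintype.sum_equiv (updEquiv i φ) _ _ (fun u => ?_)
  change _ = z * ((∏ l, κ l (update u i (φ (u i)) l)) * Ψ (update u i (φ (u i))))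
  rw [← Finset.mul_prod_erase Finset.univ _ (Finset.mem_univ i),
    ← Finset.mul_prod_erase Finset.univ (fun l => κ l (update u i (φ (u i)) l))
      (Finset.mem_univ i), update_self]
  have e : ∏ l ∈ Finset.univ.erase i, κ l (update u i (φ (u i)) l) =
      ∏ l ∈ Finset.univ.erase i, κ l (u l) := by
    apply Finset.prod_congr rfl
    intro l hl
    rw [update_of_ne (Finset.ne_of_mem_erase hl)]
  rw [e]
  linear_combination (∏ l ∈ Finset.univ.erase i, κ l (u l)) * h u

/-- left translation of the group component, if the first flag is off -/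
def leftE {G : Type*} [Group G] (w : G) : G × Bool × Bool ≃ G × Bool × Bool where
  toFun u := (if u.2.1 then u.1 else w * u.1, u.2)
  invFun u := (if u.2.1 then u.1 else w⁻¹ * u.1, u.2)
  left_inv := by rintro ⟨g, b1, b2⟩; cases b1 <;> simp
  right_inv := by rintro ⟨g, b1, b2⟩; cases b1 <;> simp

/-- right translation of the group component, if the second flag is off -/
def rightE {G : Type*} [Group G] (w : G) : G × Bool × Bool ≃ G × Bool × Bool where
  toFun u := (if u.2.2 then u.1 else u.1 * w⁻¹, u.2)
  invFun u := (if u.2.2 then u.1 else u.1 * w, u.2)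
  left_inv := by rintro ⟨g, b1, b2⟩; cases b2 <;> simp
  right_inv := by rintro ⟨g, b1, b2⟩; cases b2 <;> simp

/-- flipping the first flag -/
def flip1 {G : Type*} : G × Bool × Bool ≃ G × Bool × Bool where
  toFun u := (u.1, !u.2.1, u.2.2)
  invFun u := (u.1, !u.2.1, u.2.2)
  left_inv := by rintro ⟨g, b1, b2⟩; simp
  right_inv := by rintro ⟨g, b1, b2⟩; simp

/-- flipping the second flag -/
def flip2 {G : Type*} : G × Bool × Bool ≃ G × Bool × Bool where
  toFun u := (u.1, u.2.1, !u.2.2)
  invFun u := (u.1, u.2.1, !u.2.2)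
  left_inv := by rintro ⟨g, b1, b2⟩; simp
  right_inv := by rintro ⟨g, b1, b2⟩; simp

lemma sgn_not {k : Type*} [Field k] (b : Bool) : (sgn (!b) : k) = - sgn b := by
  cases b <;> simp [sgn]

lemma arith1 {k : Type*} [Field k] (N a x y t : k) (h : x * y = 1) :
    N * a * t = x * (N * (y * a) * t) := by
  linear_combination (-(N * a * t)) * h

lemma arith2 {k : Type*} [Field k] (N a x y t : k) (h : x * y = 1) :
    N * a * t = x * (N * (a * y) * t) := by
  linear_combination (-(N * a * t)) * h

end A2

section A2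
variable {k : Type u} [Field k] [IsAlgClosed k] [CharZero k]
  {F₁ F₂ : Type u} [Field F₁] [Algebra k F₁] [Field F₂] [Algebra k F₂]
  {V₁ : Subgroup (F₁ ≃ₐ[k] F₁)} {V₂ : Subgroup (F₂ ≃ₐ[k] F₂)} [Finite V₁] [Finite V₂]
  (h₁ : IsFunctionField k F₁) (h₂ : IsFunctionField k F₂) (G : Subgroup (V₁ × V₂)) [Fintype G]
  {n : ℕ} {Λ : Type*} (W : Λ → Subgroup G) (χ : ∀ l, W l →* kˣ) (o : Place k F₁ × Place k F₂)
  (Θ : (Fin n → Place k F₁ × Place k F₂) → k) (c : Fin n → Λ)

theorem comp_kills (hΘ : Kills (((curve h₁).prod (curve h₂)).pow n) Θ) :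
    Kills (((curve h₁).prod (curve h₂)).pow n) (comp h₁ G W χ o Θ c) := by
  have hr : ∀ u : Fin n → G × Bool × Bool,
      Induced (((curve h₁).prod (curve h₂)).pow n) (((curve h₁).prod (curve h₂)).pow n)
        (fun (p : Fin n → Place k F₁ × Place k F₂) i => rmap h₁ G o (u i) (p i)) := by
    intro u K _ _ hK m
    refine ⟨fun i => (actM h₁ (u i).1.1.1.1 (if (u i).2.1 then Sum.inl o.1 else (m i).1),
      if (u i).2.2 then Sum.inl o.2 else (m i).2), fun v => ?_⟩
    funext i
    change ((curve h₁).eval hK (actM h₁ (u i).1.1.1.1 (if (u i).2.1 then Sum.inl o.1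
      else (m i).1)) v, (curve h₂).eval hK (if (u i).2.2 then Sum.inl o.2 else (m i).2) v) =
      (act h₁ (u i).1.1.1.1 (if (u i).2.1 then o.1 else (curve h₁).eval hK (m i).1 v),
        if (u i).2.2 then o.2 else (curve h₂).eval hK (m i).2 v)
    rw [eval_actM]
    refine Prod.ext ?_ ?_
    · by_cases hb : (u i).2.1 = true
      · simp only [hb, if_true]
      · simp only [hb]; rfl
    · by_cases hb : (u i).2.2 = true
      · simp only [hb, if_true]
      · simp only [hb]; rfl
  exact Kills.sum (X := ((curve h₁).prod (curve h₂)).pow n) Finset.univ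
    (f := fun (u : Fin n → G × Bool × Bool) (p : Fin n → Place k F₁ × Place k F₂) =>
      (∏ i, kap G (W (c i)) (χ (c i)) (u i)) * Θ (fun i => rmap h₁ G o (u i) (p i)))
    (fun u _ => Kills.smul _ (hΘ.comp (hr u)))

theorem comp_swap (hΘ : ∀ i j, i ≠ j → ∀ p, Θ (fun l => p (Equiv.swap i j l)) = - Θ p)
    (i j : Fin n) (hij : i ≠ j) (hc : c i = c j) (p : Fin n → Place k F₁ × Place k F₂) :
    comp h₁ G W χ o Θ c (fun l => p (Equiv.swap i j l)) = - comp h₁ G W χ o Θ c p := by
  have hc' : ∀ l, c (Equiv.swap i j l) = c l := by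
    intro l
    by_cases h1 : l = i
    · rw [h1, Equiv.swap_apply_left, hc]
    · by_cases h2 : l = j
      · rw [h2, Equiv.swap_apply_right, hc]
      · rw [Equiv.swap_apply_of_ne_of_ne h1 h2]
  unfold comp
  rw [← Finset.sum_neg_distrib]
  refine Fintype.sum_equiv (Equiv.arrowCongr (Equiv.swap i j) (Equiv.refl (G × Bool × Bool)))
    _ _ (fun u => ?_)
  have hu : ∀ l, (Equiv.arrowCongr (Equiv.swap i j) (Equiv.refl (G × Bool × Bool))) u l =
      u (Equiv.swap i j l) := fun l => rfl
  simp only [hu]
  have h1 : Θ (fun l => rmap h₁ G o (u l) (p (Equiv.swap i j l))) =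
      - Θ (fun l => rmap h₁ G o (u (Equiv.swap i j l)) (p l)) := by
    rw [← hΘ i j hij]
    congr 1
    funext l
    rw [Equiv.swap_apply_self]
  have h2 : ∏ l, kap G (W (c l)) (χ (c l)) (u (Equiv.swap i j l)) =
      ∏ l, kap G (W (c l)) (χ (c l)) (u l) := by
    rw [← Equiv.prod_comp (Equiv.swap i j) (fun l => kap G (W (c l)) (χ (c l)) (u l))]
    refine Finset.prod_congr rfl (fun l _ => ?_)
    exact (congrArg (fun m => kap G (W m) (χ m) (u (Equiv.swap i j l))) (hc' l)).symm
  rw [h1, h2, mul_neg]

theorem comp_left (i : Fin n) (w : W (c i)) (p : Fin n → Place k F₁ × Place k F₂) :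
    comp h₁ G W χ o Θ c (update p i (act h₁ (act₁ (W (c i)) w) (p i).1, (p i).2)) =
      (χ (c i) w : k) * comp h₁ G W χ o Θ c p := by
  unfold comp
  refine A2.reindex i (A2.leftE (w : G)) _ (fun l => kap G (W (c l)) (χ (c l)))
    (fun u => Θ (fun l => rmap h₁ G o (u l) (p l)))
    (fun u => Θ (fun l => rmap h₁ G o (u l)
      (update p i (act h₁ (act₁ (W (c i)) w) (p i).1, (p i).2) l))) (fun u => ?_)
  by_cases hb : (u i).2.1 = true
  · have e0 : A2.leftE (w : G) (u i) = u i := by
      refine Prod.ext ?_ rfl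
      change (if (u i).2.1 then (u i).1 else _) = _
      rw [if_pos hb]
    rw [e0, update_eq_self]
    by_cases hχ : χ (c i) = 1
    · have e1 : (χ (c i) w : k) = 1 := by rw [hχ]; simp
      have e2 : (fun l => rmap h₁ G o (u l)
          (update p i (act h₁ (act₁ (W (c i)) w) (p i).1, (p i).2) l)) =
          (fun l => rmap h₁ G o (u l) (p l)) := by
        funext l
        by_cases hl : l = i
        · rw [hl, update_self]
          unfold rmap
          rw [if_pos hb, if_pos hb]
        · rw [update_of_ne hl]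
      rw [e1, one_mul]
      simp only [e2]
    · have e1 : kap G (W (c i)) (χ (c i)) (u i) = 0 := by
        unfold kap
        rw [if_neg hχ, if_pos (by rw [hb]; rfl), mul_zero]
      simp only [e1, zero_mul, mul_zero]
  · have hb' : (u i).2.1 = false := by simpa using hb
    have e0 : A2.leftE (w : G) (u i) = ((w : G) * (u i).1, (u i).2) := by
      refine Prod.ext ?_ rfl
      change (if (u i).2.1 then (u i).1 else _) = _
      rw [if_neg hb]
    have e2 : (fun l => rmap h₁ G o (u l)
        (update p i (act h₁ (act₁ (W (c i)) w) (p i).1, (p i).2) l)) =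
        (fun l => rmap h₁ G o (update u i (A2.leftE (w : G) (u i)) l) (p l)) := by
      funext l
      by_cases hl : l = i
      · rw [hl, update_self, update_self, e0]
        unfold rmap
        simp only [hb', Bool.false_eq_true, if_false]
        refine Prod.ext ?_ rfl
        exact (act_mul h₁ _ _ _).symm
      · rw [update_of_ne hl, update_of_ne hl]
    have e1 : kap G (W (c i)) (χ (c i)) (u i) =
        (χ (c i) w : k) * kap G (W (c i)) (χ (c i)) (A2.leftE (w : G) (u i)) := by
      rw [e0]
      unfold kap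
      by_cases hg : (u i).1 ∈ W (c i)
      · have hg' : (w : G) * (u i).1 ∈ W (c i) := (W (c i)).mul_mem w.2 hg
        rw [dif_pos hg, dif_pos hg']
        have e3 : (⟨(w : G) * (u i).1, hg'⟩ : W (c i)) = w * ⟨(u i).1, hg⟩ := rfl
        rw [e3, map_mul, mul_inv, Units.val_mul]
        have e4 : (χ (c i) w : k) * (((χ (c i) w)⁻¹ : kˣ) : k) = 1 := by simp
        exact A2.arith1 _ _ _ _ _ e4
      · have hg' : ¬ (w : G) * (u i).1 ∈ W (c i) := fun h =>
          hg (((W (c i)).mul_mem_cancel_left w.2).mp h)
        rw [dif_neg hg, dif_neg hg']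
        ring
    simp only [e2]
    rw [e1, mul_assoc]

theorem comp_right (hG : ∀ (i : Fin n) (g : G) (p : Fin n → Place k F₁ × Place k F₂),
      Θ (update p i (act2 h₁ h₂ V₁ V₂ g.1 (p i))) = Θ p)
    (i : Fin n) (w : W (c i)) (p : Fin n → Place k F₁ × Place k F₂) :
    comp h₁ G W χ o Θ c (update p i ((p i).1, act h₂ (act₂ (W (c i)) w) (p i).2)) =
      (((χ (c i) w)⁻¹ : kˣ) : k) * comp h₁ G W χ o Θ c p := by
  unfold comp
  refine A2.reindex i (A2.rightE (w : G)) _ (fun l => kap G (W (c l)) (χ (c l)))
    (fun u => Θ (fun l => rmap h₁ G o (u l) (p l)))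
    (fun u => Θ (fun l => rmap h₁ G o (u l)
      (update p i ((p i).1, act h₂ (act₂ (W (c i)) w) (p i).2) l))) (fun u => ?_)
  by_cases hb : (u i).2.2 = true
  · have e0 : A2.rightE (w : G) (u i) = u i := by
      refine Prod.ext ?_ rfl
      change (if (u i).2.2 then (u i).1 else _) = _
      rw [if_pos hb]
    rw [e0, update_eq_self]
    by_cases hχ : χ (c i) = 1
    · have e1 : (((χ (c i) w)⁻¹ : kˣ) : k) = 1 := by rw [hχ]; simp
      have e2 : (fun l => rmap h₁ G o (u l)
          (update p i ((p i).1, act h₂ (act₂ (W (c i)) w) (p i).2) l)) =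
          (fun l => rmap h₁ G o (u l) (p l)) := by
        funext l
        by_cases hl : l = i
        · rw [hl, update_self]
          unfold rmap
          rw [if_pos hb, if_pos hb]
        · rw [update_of_ne hl]
      rw [e1, one_mul]
      simp only [e2]
    · have e1 : kap G (W (c i)) (χ (c i)) (u i) = 0 := by
        unfold kap
        rw [if_neg hχ, if_pos (by rw [hb]; simp), mul_zero]
      simp only [e1, zero_mul, mul_zero]
  · have hb' : (u i).2.2 = false := by simpa using hb
    have e0 : A2.rightE (w : G) (u i) = ((u i).1 * (w : G)⁻¹, (u i).2) := by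
      refine Prod.ext ?_ rfl
      change (if (u i).2.2 then (u i).1 else _) = _
      rw [if_neg hb]
    have e2 : Θ (fun l => rmap h₁ G o (u l)
        (update p i ((p i).1, act h₂ (act₂ (W (c i)) w) (p i).2) l)) =
        Θ (fun l => rmap h₁ G o (update u i (A2.rightE (w : G) (u i)) l) (p l)) := by
      rw [← hG i (w : G) (fun l => rmap h₁ G o (update u i (A2.rightE (w : G) (u i)) l) (p l))]
      congr 1
      funext l
      by_cases hl : l = i
      · rw [hl, update_self, update_self, update_self, e0]
        unfold rmap act2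
        simp only [hb', Bool.false_eq_true, if_false]
        refine Prod.ext ?_ rfl
        change act h₁ (u i).1.1.1.1 _ = act h₁ (w : G).1.1.1
          (act h₁ ((u i).1 * (w : G)⁻¹).1.1.1 _)
        rw [← act_mul]
        have e5 : ((u i).1 * (w : G)⁻¹).1.1.1 * (w : G).1.1.1 = (u i).1.1.1.1 := by
          have := congrArg (fun z : G => z.1.1.1) (inv_mul_cancel_right (u i).1 (w : G))
          exact this
        rw [e5]
      · rw [update_of_ne hl, update_of_ne hl, update_of_ne hl]
    have e1 : kap G (W (c i)) (χ (c i)) (u i) =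
        (((χ (c i) w)⁻¹ : kˣ) : k) * kap G (W (c i)) (χ (c i)) (A2.rightE (w : G) (u i)) := by
      rw [e0]
      unfold kap
      by_cases hg : (u i).1 ∈ W (c i)
      · have hg' : (u i).1 * (w : G)⁻¹ ∈ W (c i) :=
          (W (c i)).mul_mem hg ((W (c i)).inv_mem w.2)
        rw [dif_pos hg, dif_pos hg']
        have e3 : (⟨(u i).1 * (w : G)⁻¹, hg'⟩ : W (c i)) = ⟨(u i).1, hg⟩ * w⁻¹ := rfl
        rw [e3, map_mul, map_inv, mul_inv, inv_inv, Units.val_mul]
        have e4 : (((χ (c i) w)⁻¹ : kˣ) : k) * (χ (c i) w : k) = 1 := by simp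
        exact A2.arith2 _ _ _ _ _ e4
      · have hg' : ¬ (u i).1 * (w : G)⁻¹ ∈ W (c i) := fun h =>
          hg (((W (c i)).mul_mem_cancel_right ((W (c i)).inv_mem w.2)).mp h)
        rw [dif_neg hg, dif_neg hg']
        ring
    simp only [e2]
    rw [e1, mul_assoc]

theorem comp_zero (i : Fin n) (hχ : χ (c i) = 1) (p : Fin n → Place k F₁ × Place k F₂)
    (hp : (p i).1 = o.1 ∨ (p i).2 = o.2) : comp h₁ G W χ o Θ c p = 0 := by
  have key : comp h₁ G W χ o Θ c p = (-1 : k) * comp h₁ G W χ o Θ c p := by
    rcases hp with hp | hp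
    · refine A2.reindex i A2.flip1 _ (fun l => kap G (W (c l)) (χ (c l)))
        (fun u => Θ (fun l => rmap h₁ G o (u l) (p l)))
        (fun u => Θ (fun l => rmap h₁ G o (u l) (p l))) (fun u => ?_)
      have e2 : (fun l => rmap h₁ G o (update u i (A2.flip1 (u i)) l) (p l)) =
          (fun l => rmap h₁ G o (u l) (p l)) := by
        funext l
        by_cases hl : l = i
        · rw [hl, update_self]
          rw [show A2.flip1 (u i) = ((u i).1, !(u i).2.1, (u i).2.2) from rfl]
          unfold rmap
          refine Prod.ext ?_ rfl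
          change act h₁ _ (if (!(u i).2.1) = true then o.1 else (p i).1) =
            act h₁ _ (if (u i).2.1 = true then o.1 else (p i).1)
          rw [hp, ite_self, ite_self]
        · rw [update_of_ne hl]
      have e1 : kap G (W (c i)) (χ (c i)) (A2.flip1 (u i)) =
          - kap G (W (c i)) (χ (c i)) (u i) := by
        rw [show A2.flip1 (u i) = ((u i).1, !(u i).2.1, (u i).2.2) from rfl]
        unfold kap
        rw [if_pos hχ, if_pos hχ]
        change _ * _ * (sgn (!(u i).2.1) * sgn (u i).2.2) = _
        rw [A2.sgn_not]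
        ring
      simp only [e2, e1]
      ring
    · refine A2.reindex i A2.flip2 _ (fun l => kap G (W (c l)) (χ (c l)))
        (fun u => Θ (fun l => rmap h₁ G o (u l) (p l)))
        (fun u => Θ (fun l => rmap h₁ G o (u l) (p l))) (fun u => ?_)
      have e2 : (fun l => rmap h₁ G o (update u i (A2.flip2 (u i)) l) (p l)) =
          (fun l => rmap h₁ G o (u l) (p l)) := by
        funext l
        by_cases hl : l = i
        · rw [hl, update_self]
          rw [show A2.flip2 (u i) = ((u i).1, (u i).2.1, !(u i).2.2) from rfl]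
          unfold rmap
          refine Prod.ext rfl ?_
          change (if (!(u i).2.2) = true then o.2 else (p i).2) =
            (if (u i).2.2 = true then o.2 else (p i).2)
          rw [hp, ite_self, ite_self]
        · rw [update_of_ne hl]
      have e1 : kap G (W (c i)) (χ (c i)) (A2.flip2 (u i)) =
          - kap G (W (c i)) (χ (c i)) (u i) := by
        rw [show A2.flip2 (u i) = ((u i).1, (u i).2.1, !(u i).2.2) from rfl]
        unfold kap
        rw [if_pos hχ, if_pos hχ]
        change _ * _ * (sgn (u i).2.1 * sgn (!(u i).2.2)) = _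
        rw [A2.sgn_not]
        ring
      simp only [e2, e1]
      ring
  have h2 : (2 : k) * comp h₁ G W χ o Θ c p = 0 := by linear_combination key
  exact (mul_eq_zero.mp h2).resolve_left two_ne_zero

end A2

end BQ
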