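import Pool.Agent.Helper99.BQ.Basic
import Pool.Agent.Helper38.BQ.H2
import Pool.Agent.Helper40.BQ.H3
import Pool.Agent.Helper40.BQ.H4

/-! MP_986e36_gt, blocks H5 and H6: the quotient of `L²([0,1], ℍ)`. -/

open scoped Manifold ContDiff Quaternion ENNReal Topology
open Bundle Set Metric

noncomputable section

namespace Helper99.BQ

section H6

/-- H6 -/
theorem infinite_dim : ¬ FiniteDimensional ℝ HH := by
  intro hfin
  let s : ℕ → Set ℝ := fun n => Ioc (1 / ((n : ℝ) + 2)) (1 / ((n : ℝ) + 1))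
  have hs : ∀ n, MeasurableSet (s n) := fun n => measurableSet_Ioc
  have hμs : ∀ n, μI (s n) ≠ (⊤ : ℝ≥0∞) := fun n => MeasureTheory.measure_ne_top _ _
  let v : ℕ → HH := fun n => MeasureTheory.indicatorConstLp 2 (hs n) (hμs n) (1 : ℍ[ℝ])
  have hlt : ∀ n : ℕ, 1 / ((n : ℝ) + 2) < 1 / ((n : ℝ) + 1) := by
    intro n
    apply one_div_lt_one_div_of_lt <;> linarith [Nat.cast_nonneg (α := ℝ) n]
  have hsub : ∀ n, s n ⊆ Icc 0 1 := by
    intro n x hx
    have h1 : (0 : ℝ) < 1 / ((n : ℝ) + 2) := by positivity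
    have h2 : 1 / ((n : ℝ) + 1) ≤ 1 := by
      rw [div_le_one (by positivity)]
      linarith [Nat.cast_nonneg (α := ℝ) n]
    exact ⟨by linarith [hx.1], hx.2.trans h2⟩
  have hreal : ∀ n, 0 < μI.real (s n) := by
    intro n
    rw [MeasureTheory.measureReal_def, μI, MeasureTheory.Measure.restrict_apply (hs n),
      inter_eq_left.mpr (hsub n), Real.volume_Ioc, ENNReal.toReal_ofReal (by linarith [hlt n])]
    linarith [hlt n]
  have hne : ∀ n, v n ≠ 0 := by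
    intro n h0
    have h1 : ‖v n‖ = _ := MeasureTheory.norm_indicatorConstLp (p := 2) (hs := hs n)
      (hμs := hμs n) (c := (1 : ℍ[ℝ])) (by norm_num) (by norm_num)
    rw [h0, norm_zero, norm_one, one_mul] at h1
    have := Real.rpow_pos_of_pos (hreal n) (1 / (2 : ℝ≥0∞).toReal)
    linarith
  have hdisj : ∀ i j, i < j → s i ∩ s j = ∅ := by
    intro i j hij
    rw [Set.eq_empty_iff_forall_notMem]
    rintro x ⟨hx1, hx2⟩
    have h1 : 1 / ((j : ℝ) + 1) ≤ 1 / ((i : ℝ) + 2) := by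
      apply one_div_le_one_div_of_le (by positivity)
      have : (i : ℝ) + 1 ≤ j := by exact_mod_cast hij
      linarith
    exact absurd (hx1.1.trans_le (hx2.2.trans h1)) (lt_irrefl _)
  have horth : Pairwise fun i j => inner ℝ (v i) (v j) = (0 : ℝ) := by
    intro i j hij
    have h1 : inner ℝ (v i) (v j) = μI.real (s i ∩ s j) • inner ℝ (1 : ℍ[ℝ]) 1 :=
      MeasureTheory.L2.inner_indicatorConstLp_indicatorConstLp (hs i) (hs j) (hμs i) (hμs j) 1 1
    have h2 : s i ∩ s j = ∅ := by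
      rcases lt_or_gt_of_ne hij with h | h
      · exact hdisj i j h
      · rw [inter_comm]; exact hdisj j i h
    rw [h1, h2]
    simp
  have hli := linearIndependent_of_ne_zero_of_inner_eq_zero (𝕜 := ℝ) hne horth
  have := hli.finite
  exact not_finite ℕ

end H6

section H5

lemma dG_self {x : ℍ[ℝ]} (hx : x ≠ 0) : dG x x = 0 := by
  unfold dG
  rw [InnerProductGeometry.angle_self hx]
  simp

lemma dG_comm (x y : ℍ[ℝ]) : dG x y = dG y x := by
  unfold dG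
  rw [InnerProductGeometry.angle_comm, ← neg_sub (Real.log ‖y‖), neg_sq]

lemma dG_nonneg (x y : ℍ[ℝ]) : 0 ≤ dG x y := Real.sqrt_nonneg _

lemma dG_eq_zero {x y : ℍ[ℝ]} (hx : x ≠ 0) (hy : y ≠ 0) (h : dG x y = 0) : x = y := by
  unfold dG at h
  rw [Real.sqrt_eq_zero (by positivity)] at h
  have ha := sq_nonneg (Real.log ‖x‖ - Real.log ‖y‖)
  have hb := sq_nonneg (InnerProductGeometry.angle x y)
  have h1 : InnerProductGeometry.angle x y = 0 := by
    apply pow_eq_zero_iff (two_ne_zero) |>.mp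
    linarith
  have h2 : Real.log ‖x‖ - Real.log ‖y‖ = 0 := by
    apply pow_eq_zero_iff (two_ne_zero) |>.mp
    linarith
  have h3 : ‖x‖ = ‖y‖ := Real.log_injOn_pos (norm_pos_iff.mpr hx) (norm_pos_iff.mpr hy)
    (sub_eq_zero.mp h2)
  obtain ⟨-, r, hr, hyr⟩ := InnerProductGeometry.angle_eq_zero_iff.mp h1
  rw [hyr, norm_smul, Real.norm_of_nonneg hr.le] at h3
  have hx' : ‖x‖ ≠ 0 := norm_ne_zero_iff.mpr hx
  have h4 : r = 1 := by
    have : ‖x‖ * (r - 1) = 0 := by linarith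
    rcases mul_eq_zero.mp this with h | h
    · exact absurd h hx'
    · linarith
  rw [hyr, h4, one_smul]

lemma sqrt_add_sq_triangle (a b c d : ℝ) :
    Real.sqrt ((a + c) ^ 2 + (b + d) ^ 2) ≤ Real.sqrt (a ^ 2 + b ^ 2) +
      Real.sqrt (c ^ 2 + d ^ 2) := by
  have h1 := Real.sq_sqrt (show 0 ≤ a ^ 2 + b ^ 2 by positivity)
  have h2 := Real.sq_sqrt (show 0 ≤ c ^ 2 + d ^ 2 by positivity)
  have h3 := Real.sqrt_nonneg (a ^ 2 + b ^ 2)
  have h4 := Real.sqrt_nonneg (c ^ 2 + d ^ 2)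
  apply Real.sqrt_le_iff.mpr ⟨by positivity, ?_⟩
  have h5 : a * c + b * d ≤ Real.sqrt (a ^ 2 + b ^ 2) * Real.sqrt (c ^ 2 + d ^ 2) := by
    rw [← Real.sqrt_mul (by positivity)]
    apply Real.le_sqrt_of_sq_le
    nlinarith [sq_nonneg (a * d - b * c)]
  nlinarith

lemma dG_triangle (x y z : ℍ[ℝ]) : dG x z ≤ dG x y + dG y z := by
  unfold dG
  have h1 := InnerProductGeometry.angle_le_angle_add_angle x y z
  have h2 := InnerProductGeometry.angle_nonneg x z
  refine le_trans (Real.sqrt_le_sqrt ?_) (sqrt_add_sq_triangle _ _ _ _)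
  have h3 : Real.log ‖x‖ - Real.log ‖z‖ = (Real.log ‖x‖ - Real.log ‖y‖) +
    (Real.log ‖y‖ - Real.log ‖z‖) := by ring
  rw [h3]
  gcongr

/-- the isometry `e^u rot_u` -/
def scal (a b u : ℝ) (x : ℍ[ℝ]) : ℍ[ℝ] := Real.exp u • tw (a * u) (b * u) x

lemma norm_scal (a b u : ℝ) (x : ℍ[ℝ]) : ‖scal a b u x‖ = Real.exp u * ‖x‖ := by
  rw [scal, norm_smul, norm_tw, Real.norm_of_nonneg (Real.exp_pos u).le]

lemma scal_ne {a b u : ℝ} {x : ℍ[ℝ]} (hx : x ≠ 0) : scal a b u x ≠ 0 := by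
  rw [← norm_pos_iff, norm_scal]
  have := norm_pos_iff.mpr hx
  positivity

lemma log_norm_scal {a b u : ℝ} {x : ℍ[ℝ]} (hx : x ≠ 0) :
    Real.log ‖scal a b u x‖ = u + Real.log ‖x‖ := by
  rw [norm_scal, Real.log_mul (Real.exp_pos u).ne' (norm_ne_zero_iff.mpr hx), Real.log_exp]

lemma dG_scal {a b u : ℝ} {x y : ℍ[ℝ]} (hx : x ≠ 0) (hy : y ≠ 0) :
    dG (scal a b u x) (scal a b u y) = dG x y := by
  unfold dG
  rw [log_norm_scal hx, log_norm_scal hy]
  have h1 : InnerProductGeometry.angle (scal a b u x) (scal a b u y) =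
      InnerProductGeometry.angle x y := by
    unfold scal
    rw [InnerProductGeometry.angle_smul_left_of_pos _ _ (Real.exp_pos u),
      InnerProductGeometry.angle_smul_right_of_pos _ _ (Real.exp_pos u), angle_tw]
  rw [h1]
  congr 2
  ring

/-- projection to the sphere -/
def proj (a b : ℝ) (x : ℍ[ℝ]) : ℍ[ℝ] :=
  tw (-(a * Real.log ‖x‖)) (-(b * Real.log ‖x‖)) (‖x‖⁻¹ • x)

lemma norm_proj (a b : ℝ) {x : ℍ[ℝ]} (hx : x ≠ 0) : ‖proj a b x‖ = 1 := by
  rw [proj, norm_tw, norm_smul, norm_inv, norm_norm]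
  exact inv_mul_cancel₀ (norm_ne_zero_iff.mpr hx)

lemma proj_of_norm_one (a b : ℝ) {x : ℍ[ℝ]} (hx : ‖x‖ = 1) : proj a b x = x := by
  rw [proj, hx, Real.log_one, mul_zero, mul_zero, neg_zero, tw_zero, inv_one, one_smul]

lemma proj_scal (a b u : ℝ) {x : ℍ[ℝ]} (hx : x ≠ 0) : proj a b (scal a b u x) = proj a b x := by
  have hx' := norm_ne_zero_iff.mpr hx
  unfold proj
  rw [log_norm_scal hx, norm_scal, scal, tw_smul, tw_smul, tw_smul, tw_tw, smul_smul]
  have h1 : (Real.exp u * ‖x‖)⁻¹ * Real.exp u = ‖x‖⁻¹ := by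
    have := (Real.exp_pos u).ne'
    field_simp
  rw [h1]
  congr 2 <;> ring

lemma angle_proj (a b v : ℝ) {x y : ℍ[ℝ]} (hx : x ≠ 0) (hy : y ≠ 0) :
    InnerProductGeometry.angle (proj a b x) (tw (a * v) (b * v) (proj a b y)) =
      InnerProductGeometry.angle x (tw (a * (v + Real.log ‖x‖ - Real.log ‖y‖))
        (b * (v + Real.log ‖x‖ - Real.log ‖y‖)) y) := by
  unfold proj
  rw [tw_smul, tw_smul, tw_smul,
    InnerProductGeometry.angle_smul_left_of_pos _ _ (inv_pos.mpr (norm_pos_iff.mpr hx)),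
    InnerProductGeometry.angle_smul_right_of_pos _ _ (inv_pos.mpr (norm_pos_iff.mpr hy)), tw_tw,
    ← angle_tw (a * Real.log ‖x‖) (b * Real.log ‖x‖), tw_tw, tw_tw]
  have h1 : a * Real.log ‖x‖ + -(a * Real.log ‖x‖) = 0 := by ring
  have h2 : b * Real.log ‖x‖ + -(b * Real.log ‖x‖) = 0 := by ring
  rw [h1, h2, tw_zero]
  congr 2 <;> ring

lemma dG_scal_right (a b u : ℝ) {x y : ℍ[ℝ]} (hy : y ≠ 0) :
    dG x (scal a b u y) = Real.sqrt (InnerProductGeometry.angle x (tw (a * u) (b * u) y) ^ 2 +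
      (u + Real.log ‖y‖ - Real.log ‖x‖) ^ 2) := by
  unfold dG
  rw [log_norm_scal hy]
  have h1 : InnerProductGeometry.angle x (scal a b u y) =
      InnerProductGeometry.angle x (tw (a * u) (b * u) y) := by
    unfold scal
    rw [InnerProductGeometry.angle_smul_right_of_pos _ _ (Real.exp_pos u)]
  rw [h1]
  congr 2
  ring

lemma dR_proj_le (a b u : ℝ) {x y : ℍ[ℝ]} (hx : x ≠ 0) (hy : y ≠ 0) :
    dR a b (proj a b x) (proj a b y) ≤ dG x (scal a b u y) := by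
  have h1 := dR_le a b (proj a b x) (proj a b y) (u + Real.log ‖y‖ - Real.log ‖x‖)
  rw [angle_proj _ _ _ hx hy] at h1
  rw [dG_scal_right _ _ _ hy]
  have h2 : u + Real.log ‖y‖ - Real.log ‖x‖ + Real.log ‖x‖ - Real.log ‖y‖ = u := by ring
  rwa [h2] at h1

lemma dR_proj_attained (a b : ℝ) {x y : ℍ[ℝ]} (hx : x ≠ 0) (hy : y ≠ 0) :
    ∃ u : ℝ, dR a b (proj a b x) (proj a b y) = dG x (scal a b u y) := by
  obtain ⟨v, hv⟩ := dR_attained a b (proj a b x) (proj a b y)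
  refine ⟨v + Real.log ‖x‖ - Real.log ‖y‖, ?_⟩
  rw [hv, angle_proj _ _ _ hx hy, dG_scal_right _ _ _ hy]
  have h2 : v + Real.log ‖x‖ - Real.log ‖y‖ + Real.log ‖y‖ - Real.log ‖x‖ = v := by ring
  rw [h2]

lemma wLp_congr {g h : ℝ → ℍ[ℝ]} (hg : IsPath g) (hh : IsPath h)
    (e : ∀ t ∈ Icc (0 : ℝ) 1, g t = h t) : wLp g hg = wLp h hh := by
  unfold wLp
  apply MeasureTheory.MemLp.toLp_congr
  rw [Filter.EventuallyEq, μI, MeasureTheory.ae_restrict_iff' measurableSet_Icc]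
  refine Filter.Eventually.of_forall fun t ht => ?_
  unfold vel
  rw [e t ht, derivWithin_congr (fun s hs => e s hs) (e t ht)]

/-- an isometry of `L²` which realises the map `s` of the group at the endpoint -/
def Realises (T : HH ≃ᵢ HH) (s : ℍ[ℝ] → ℍ[ℝ]) : Prop :=
  ∀ (g : ℝ → ℍ[ℝ]) (hg : IsPath g), g 0 = 1 → ∃ (h : ℝ → ℍ[ℝ]) (hh : IsPath h),
    h 0 = 1 ∧ h 1 = s (g 1) ∧ T (wLp g hg) = wLp h hh

lemma hol_of_realises {hol : HH → ℍ[ℝ]} (hne : ∀ f, hol f ≠ 0)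
    (hpath : ∀ (g : ℝ → ℍ[ℝ]) (hg : IsPath g), g 0 = 1 → hol (wLp g hg) = g 1)
    (hlip : ∀ f f' : HH, dG (hol f) (hol f') ≤ ‖f - f'‖) {T : HH ≃ᵢ HH} {s : ℍ[ℝ] → ℍ[ℝ]}
    (hT : Realises T s) (hs0 : ∀ x, x ≠ 0 → s x ≠ 0)
    (hs : ∀ x y, x ≠ 0 → y ≠ 0 → dG (s x) (s y) = dG x y) (f : HH) : hol (T f) = s (hol f) := by
  apply dG_eq_zero (hne _) (hs0 _ (hne _))
  apply le_antisymm _ (dG_nonneg _ _)
  apply le_of_forall_pos_le_add
  intro ε hε
  obtain ⟨g, hg, g0, hfg⟩ := dense_paths f (ε := ε / 2) (by linarith)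
  obtain ⟨h, hh, h0, h1, hTg⟩ := hT g hg g0
  have e1 : dG (hol (T f)) (hol (T (wLp g hg))) ≤ ‖f - wLp g hg‖ := by
    refine (hlip _ _).trans ?_
    rw [← dist_eq_norm, T.dist_eq, dist_eq_norm]
  have e2 : hol (T (wLp g hg)) = s (g 1) := by rw [hTg, hpath h hh h0, h1]
  have e3 : dG (s (g 1)) (s (hol f)) ≤ ‖f - wLp g hg‖ := by
    rw [← hpath g hg g0, hs _ _ (hne _) (hne _), dG_comm]
    exact hlip _ _
  have e4 := dG_triangle (hol (T f)) (hol (T (wLp g hg))) (s (hol f))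
  rw [e2] at e4 e1
  linarith

lemma cis_inv (θ : ℝ) : (cis θ)⁻¹ = cis (-θ) := by
  have h : cis θ * cis (-θ) = 1 := by rw [← cis_add, add_neg_cancel, cis_zero]
  exact (eq_inv_of_mul_eq_one_right h).symm

lemma contDiff_cis7 : ContDiff ℝ 1 cis := by
  have h : cis = fun θ : ℝ => Real.cos θ • (1 : ℍ[ℝ]) + Real.sin θ • qi := by
    funext θ
    ext <;> simp [cis, qi]
  rw [h]
  exact (Real.contDiff_cos.smul contDiff_const).add (Real.contDiff_sin.smul contDiff_const)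

lemma exists_scal_gauge (a b u : ℝ) : ∃ T : HH ≃ᵢ HH, Realises T (scal a b u) := by
  let k : ℝ → ℍ[ℝ] := fun t => Real.exp (u * (1 - t)) • cis (a * u + (b - a) * u * t)
  have hk : IsPath k := by
    constructor
    · apply ContDiff.contDiffOn
      have c1 : ContDiff ℝ 1 (fun t : ℝ => Real.exp (u * (1 - t))) := by fun_prop
      have c2 : ContDiff ℝ 1 (fun t : ℝ => cis (a * u + (b - a) * u * t)) :=
        contDiff_cis7.comp (by fun_prop)
      exact c1.smul c2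
    · intro t _
      rw [← norm_pos_iff, norm_smul, norm_cis, Real.norm_of_nonneg (Real.exp_pos _).le]
      positivity
  obtain ⟨T, hT⟩ := exists_gauge hk
  refine ⟨T, fun g hg g0 => ?_⟩
  obtain ⟨h', hh'⟩ := hT g hg
  refine ⟨_, h', ?_, ?_, hh'⟩
  · simp only [g0, mul_one]
    exact mul_inv_cancel₀ (hk.ne 0 (by simp))
  · have k0 : k 0 = Real.exp u • cis (a * u) := by simp [k]
    have k1 : k 1 = cis (b * u) := by
      simp [k]
      ring_nf
    simp only [k0, k1, cis_inv, scal, tw, smul_mul_assoc]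

lemma exists_based_gauge {g G : ℝ → ℍ[ℝ]} (hg : IsPath g) (hG : IsPath G) (g0 : g 0 = 1)
    (G0 : G 0 = 1) (h1 : g 1 = G 1) :
    ∃ T : HH ≃ᵢ HH, Realises T id ∧ T (wLp g hg) = wLp G hG := by
  let k : ℝ → ℍ[ℝ] := fun t => (G t)⁻¹ * g t
  have hk : IsPath k := by
    constructor
    · exact (contDiffOn_inv' hG.smooth hG.ne).mul hg.smooth
    · intro t ht
      exact mul_ne_zero (inv_ne_zero (hG.ne t ht)) (hg.ne t ht)
  have k0 : k 0 = 1 := by simp [k, g0, G0]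
  have k1 : k 1 = 1 := by
    simp only [k, h1]
    exact inv_mul_cancel₀ (hG.ne 1 (by simp))
  obtain ⟨T, hT⟩ := exists_gauge hk
  refine ⟨T, fun g' hg' g0' => ?_, ?_⟩
  · obtain ⟨h', hh'⟩ := hT g' hg'
    refine ⟨_, h', ?_, ?_, hh'⟩
    · simp [k0, g0']
    · simp [k0, k1]
  · obtain ⟨h', hh'⟩ := hT g hg
    rw [hh']
    apply wLp_congr
    intro t ht
    have := hg.ne t ht
    have := hG.ne t ht
    simp only [k0, k, one_mul, mul_inv_rev, inv_inv]
    rw [← mul_assoc, mul_inv_cancel₀ (hg.ne t ht), one_mul]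


lemma exists_unit_im (x : ℍ[ℝ]) : ∃ n : ℍ[ℝ], n * n = -1 ∧ ‖n‖ = 1 ∧ inner ℝ n 1 = (0 : ℝ) ∧
    ∃ c : ℝ, 0 ≤ c ∧ x = x.re • (1 : ℍ[ℝ]) + c • n := by
  have key : ∀ p q r : ℝ, p ^ 2 + q ^ 2 + r ^ 2 = 1 → ∀ n : ℍ[ℝ], n = ⟨0, p, q, r⟩ →
      n * n = -1 ∧ ‖n‖ = 1 ∧ inner ℝ n 1 = (0 : ℝ) := by
    intro p q r h n hn
    have e0 : n.re = 0 := by rw [hn]
    have e1 : n.imI = p := by rw [hn]
    have e2 : n.imJ = q := by rw [hn]
    have e3 : n.imK = r := by rw [hn]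
    refine ⟨?_, ?_, ?_⟩
    · ext
      · simp [e0, e1, e2, e3]
        nlinarith
      · simp [e0, e1, e2, e3]
        ring
      · simp [e0, e1, e2, e3]
        ring
      · simp [e0, e1, e2, e3]
        ring
    · have h1 := Quaternion.normSq_eq_norm_mul_self n
      rw [Quaternion.normSq_def', e0, e1, e2, e3] at h1
      nlinarith [norm_nonneg n]
    · rw [Quaternion.inner_def]
      simp [e0]
  by_cases h : x.imI ^ 2 + x.imJ ^ 2 + x.imK ^ 2 = 0
  · have h1 : x.imI = 0 := by nlinarith [sq_nonneg x.imI, sq_nonneg x.imJ, sq_nonneg x.imK]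
    have h2 : x.imJ = 0 := by nlinarith [sq_nonneg x.imI, sq_nonneg x.imJ, sq_nonneg x.imK]
    have h3 : x.imK = 0 := by nlinarith [sq_nonneg x.imI, sq_nonneg x.imJ, sq_nonneg x.imK]
    obtain ⟨k1, k2, k3⟩ := key 1 0 0 (by norm_num) ⟨0, 1, 0, 0⟩ rfl
    refine ⟨⟨0, 1, 0, 0⟩, k1, k2, k3, 0, le_rfl, ?_⟩
    ext <;> simp [h1, h2, h3]
  · set c := Real.sqrt (x.imI ^ 2 + x.imJ ^ 2 + x.imK ^ 2) with hc
    have h0 : 0 ≤ x.imI ^ 2 + x.imJ ^ 2 + x.imK ^ 2 := by positivity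
    have hc2 : c ^ 2 = x.imI ^ 2 + x.imJ ^ 2 + x.imK ^ 2 := Real.sq_sqrt h0
    have hcpos : 0 < c := Real.sqrt_pos.mpr (lt_of_le_of_ne h0 (Ne.symm h))
    obtain ⟨k1, k2, k3⟩ := key (x.imI / c) (x.imJ / c) (x.imK / c) (by
      rw [div_pow, div_pow, div_pow, ← add_div, ← add_div, ← hc2]
      exact div_self (by positivity)) ⟨0, x.imI / c, x.imJ / c, x.imK / c⟩ rfl
    refine ⟨_, k1, k2, k3, c, hcpos.le, ?_⟩
    ext
    · simp
    · simp
      field_simp
    · simp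
      field_simp
    · simp
      field_simp

/-- one-parameter path from `1` to `q₁` -/
lemma exists_segment {q₁ : ℍ[ℝ]} (hq : q₁ ≠ 0) : ∃ (q : ℝ → ℍ[ℝ]) (ξ : ℍ[ℝ]), IsPath q ∧
    q 0 = 1 ∧ q 1 = q₁ ∧ ‖ξ‖ = dG 1 q₁ ∧ ∀ t, HasDerivAt q (ξ * q t) t := by
  obtain ⟨n, hnn, hn1, hn0, c, hc, hx⟩ := exists_unit_im q₁
  have hr : 0 < ‖q₁‖ := norm_pos_iff.mpr hq
  have hnorm : ‖q₁‖ ^ 2 = q₁.re ^ 2 + c ^ 2 := by
    conv_lhs => rw [hx]
    rw [norm_sq_orth _ _ hn0, hn1]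
    simp
  set θ := InnerProductGeometry.angle 1 q₁ with hθ
  have hinner : inner ℝ (1 : ℍ[ℝ]) q₁ = q₁.re := by
    rw [Quaternion.inner_def]; simp
  have hcos : Real.cos θ = q₁.re / ‖q₁‖ := by
    rw [hθ, InnerProductGeometry.cos_angle, hinner, norm_one, one_mul]
  have hsin : Real.sin θ = c / ‖q₁‖ := by
    have h1 : 0 ≤ Real.sin θ := InnerProductGeometry.sin_angle_nonneg _ _
    have h2 : Real.sin θ ^ 2 = (c / ‖q₁‖) ^ 2 := by
      have h3 := Real.sin_sq_add_cos_sq θ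
      rw [hcos] at h3
      have h4 : (q₁.re / ‖q₁‖) ^ 2 + (c / ‖q₁‖) ^ 2 = 1 := by
        rw [div_pow, div_pow, ← add_div, ← hnorm]
        exact div_self (by positivity)
      linarith
    exact (pow_left_inj₀ h1 (by positivity) two_ne_zero).mp h2
  let q : ℝ → ℍ[ℝ] := fun t => Real.exp (t * Real.log ‖q₁‖) •
    (Real.cos (t * θ) • (1 : ℍ[ℝ]) + Real.sin (t * θ) • n)
  let ξ : ℍ[ℝ] := Real.log ‖q₁‖ • (1 : ℍ[ℝ]) + θ • n
  have hd : ∀ t, HasDerivAt q (ξ * q t) t := by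
    intro t
    have d1 : HasDerivAt (fun t : ℝ => Real.exp (t * Real.log ‖q₁‖))
        (Real.exp (t * Real.log ‖q₁‖) * Real.log ‖q₁‖) t := by
      have := ((hasDerivAt_id t).mul_const (Real.log ‖q₁‖)).exp
      simpa using this
    have d2 : HasDerivAt (fun t : ℝ => Real.cos (t * θ)) (-(Real.sin (t * θ) * θ)) t := by
      have := ((hasDerivAt_id t).mul_const θ).cos
      simpa using this
    have d3 : HasDerivAt (fun t : ℝ => Real.sin (t * θ)) (Real.cos (t * θ) * θ) t := by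
      have := ((hasDerivAt_id t).mul_const θ).sin
      simpa using this
    have d4 := d1.smul ((d2.smul_const (1 : ℍ[ℝ])).add (d3.smul_const n))
    have e : ξ * q t =
      Real.exp (t * Real.log ‖q₁‖) • (-(Real.sin (t * θ) * θ) • (1 : ℍ[ℝ]) +
        (Real.cos (t * θ) * θ) • n) + (Real.exp (t * Real.log ‖q₁‖) * Real.log ‖q₁‖) •
        (Real.cos (t * θ) • (1 : ℍ[ℝ]) + Real.sin (t * θ) • n) := by
      show (Real.log ‖q₁‖ • (1 : ℍ[ℝ]) + θ • n) * (Real.exp (t * Real.log ‖q₁‖) •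
        (Real.cos (t * θ) • (1 : ℍ[ℝ]) + Real.sin (t * θ) • n)) = _
      rw [mul_smul_comm, add_mul, mul_add, mul_add]
      simp only [smul_mul_smul_comm, hnn, one_mul, mul_one]
      module
    rw [e]
    exact d4
  have hn : ∀ t, ‖q t‖ = Real.exp (t * Real.log ‖q₁‖) := by
    intro t
    have h1 : ‖Real.cos (t * θ) • (1 : ℍ[ℝ]) + Real.sin (t * θ) • n‖ ^ 2 = 1 := by
      rw [norm_sq_orth _ _ hn0, hn1, norm_one]
      nlinarith [Real.sin_sq_add_cos_sq (t * θ)]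
    have h2 : ‖Real.cos (t * θ) • (1 : ℍ[ℝ]) + Real.sin (t * θ) • n‖ = 1 := by
      nlinarith [norm_nonneg (Real.cos (t * θ) • (1 : ℍ[ℝ]) + Real.sin (t * θ) • n)]
    simp only [q]
    rw [norm_smul, h2, Real.norm_of_nonneg (Real.exp_pos _).le, mul_one]
  refine ⟨q, ξ, ⟨?_, ?_⟩, ?_, ?_, ?_, hd⟩
  · apply ContDiff.contDiffOn
    have c1 : ContDiff ℝ 1 (fun t : ℝ => Real.exp (t * Real.log ‖q₁‖)) := by fun_prop
    have c2 : ContDiff ℝ 1 (fun t : ℝ => Real.cos (t * θ)) := by fun_prop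
    have c3 : ContDiff ℝ 1 (fun t : ℝ => Real.sin (t * θ)) := by fun_prop
    exact c1.smul ((c2.smul contDiff_const).add (c3.smul contDiff_const))
  · intro t _
    rw [← norm_pos_iff, hn t]
    positivity
  · simp [q]
  · simp only [q, one_mul]
    rw [Real.exp_log hr, hcos, hsin, smul_add, smul_smul, smul_smul, mul_div_cancel₀ _ hr.ne',
      mul_div_cancel₀ _ hr.ne']
    exact hx.symm
  · unfold dG
    have h1 : ‖ξ‖ ^ 2 = Real.log ‖q₁‖ ^ 2 + θ ^ 2 := by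
      simp only [ξ]
      rw [norm_sq_orth _ _ hn0, hn1, norm_one]
      ring
    rw [← hθ, norm_one, Real.log_one, zero_sub, neg_sq, add_comm, ← h1,
      Real.sqrt_sq (norm_nonneg _)]

lemma wLp_mul_left {q g : ℝ → ℍ[ℝ]} {ξ : ℍ[ℝ]} (hq : IsPath q)
    (hd : ∀ t, HasDerivAt q (ξ * q t) t) (hg : IsPath g) :
    ∃ h : IsPath (fun t => q t * g t), ‖wLp g hg - wLp (fun t => q t * g t) h‖ ≤ ‖ξ‖ := by
  have h : IsPath (fun t => q t * g t) :=
    ⟨hq.smooth.mul hg.smooth, fun t ht => mul_ne_zero (hq.ne t ht) (hg.ne t ht)⟩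
  refine ⟨h, ?_⟩
  have hu : UniqueDiffOn ℝ (Icc (0 : ℝ) 1) := uniqueDiffOn_Icc_zero_one
  have hm : MeasureTheory.MemLp (vel g - vel (fun t => q t * g t)) 2 μI :=
    (memLp_vel hg).sub (memLp_vel h)
  have hw : wLp g hg - wLp (fun t => q t * g t) h = hm.toLp (vel g - vel (fun t => q t * g t)) :=
    (MeasureTheory.MemLp.toLp_sub (memLp_vel hg) (memLp_vel h)).symm
  rw [hw, MeasureTheory.Lp.norm_toLp]
  apply ENNReal.toReal_le_of_le_ofReal (norm_nonneg _)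
  have hb : ∀ᵐ t ∂μI, ‖(vel g - vel (fun t => q t * g t)) t‖ ≤ ‖ξ‖ := by
    rw [μI, MeasureTheory.ae_restrict_iff' measurableSet_Icc]
    refine Filter.Eventually.of_forall fun t ht => ?_
    have d1 : HasDerivWithinAt g (derivWithin g (Icc 0 1) t) (Icc 0 1) t :=
      (hg.smooth.differentiableOn one_ne_zero t ht).hasDerivWithinAt
    have d2 := ((hd t).hasDerivWithinAt (s := Icc (0 : ℝ) 1)).mul d1
    have d3 : derivWithin (fun t => q t * g t) (Icc 0 1) t = _ := d2.derivWithin (hu t ht)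
    have hq0 := hq.ne t ht
    have hg0 := hg.ne t ht
    have e : (vel g - vel (fun t => q t * g t)) t = -((g t)⁻¹ * ((q t)⁻¹ * (ξ * q t)) * g t) := by
      simp only [Pi.sub_apply, vel]
      rw [d3, mul_inv_rev, mul_add]
      have e1 : (g t)⁻¹ * (q t)⁻¹ * (q t * derivWithin g (Icc 0 1) t) =
          (g t)⁻¹ * derivWithin g (Icc 0 1) t := by
        rw [mul_assoc, ← mul_assoc (q t)⁻¹, inv_mul_cancel₀ hq0, one_mul]
      rw [e1]
      simp only [mul_assoc]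
      abel
    rw [e, norm_neg]
    simp only [norm_mul, norm_inv]
    have e1 := norm_ne_zero_iff.mpr hq0
    have e2 := norm_ne_zero_iff.mpr hg0
    apply le_of_eq
    field_simp
  have := MeasureTheory.eLpNorm_le_of_ae_bound (p := 2) hb
  simpa using this

/-- H5 (uses H2, H3, H4, Basic) -/
theorem hilbert_quotient (a b : ℝ) : ∃ (Γ : Subgroup (HH ≃ᵢ HH)) (p : HH → ℍ[ℝ]),
    (∀ f, ‖p f‖ = 1) ∧ (∀ x : ℍ[ℝ], ‖x‖ = 1 → ∃ f, p f = x) ∧
    ∀ f f' : HH, ENNReal.ofReal (dR a b (p f) (p f')) = ⨅ γ : Γ, edist f ((γ : HH ≃ᵢ HH) f') := by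
  obtain ⟨hol, hne, hpath, hlip⟩ := exists_hol
  let Γ : Subgroup (HH ≃ᵢ HH) :=
    { carrier := {γ | ∀ f, proj a b (hol (γ f)) = proj a b (hol f)}
      mul_mem' := by
        intro γ γ' h h' f
        rw [IsometryEquiv.mul_apply, h, h']
      one_mem' := by
        intro f
        rfl
      inv_mem' := by
        intro γ h f
        have h1 := h (γ⁻¹ f)
        rw [← IsometryEquiv.mul_apply, mul_inv_cancel] at h1
        exact h1.symm }
  have hΓ : ∀ (T : HH ≃ᵢ HH), T ∈ Γ ↔ ∀ f, proj a b (hol (T f)) = proj a b (hol f) :=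
    fun T => Iff.rfl
  refine ⟨Γ, fun f => proj a b (hol f), fun f => norm_proj a b (hne f), ?_, ?_⟩
  · intro x hx
    have hx0 : x ≠ 0 := by
      rw [← norm_pos_iff, hx]; exact one_pos
    obtain ⟨q, ξ, hq, q0, q1, -, -⟩ := exists_segment hx0
    refine ⟨wLp q hq, ?_⟩
    simp only
    rw [hpath q hq q0, q1, proj_of_norm_one a b hx]
  · intro f f'
    simp only
    apply le_antisymm
    · refine le_iInf fun γ => ?_
      rw [edist_dist]
      apply ENNReal.ofReal_le_ofReal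
      rw [← (hΓ γ).mp γ.2 f']
      have h1 := dR_proj_le a b 0 (hne f) (hne ((γ : HH ≃ᵢ HH) f'))
      have h2 : scal a b 0 (hol ((γ : HH ≃ᵢ HH) f')) = hol ((γ : HH ≃ᵢ HH) f') := by
        simp [scal, tw_zero]
      rw [h2] at h1
      rw [dist_eq_norm]
      exact h1.trans (hlip _ _)
    · apply ENNReal.le_of_forall_pos_le_add
      intro ε hε _
      obtain ⟨u, hu⟩ := dR_proj_attained a b (hne f) (hne f')
      obtain ⟨T, hT⟩ := exists_scal_gauge a b u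
      obtain ⟨g₁, hg₁, g₁0, hf₁⟩ := dense_paths f (ε := ε / 4) (by positivity)
      obtain ⟨g₂, hg₂, g₂0, hf₂⟩ := dense_paths f' (ε := ε / 4) (by positivity)
      obtain ⟨h, hh, h0, h1, hTg⟩ := hT g₂ hg₂ g₂0
      have hg₁1 : g₁ 1 ≠ 0 := hg₁.ne 1 (by simp)
      have hh1 : h 1 ≠ 0 := hh.ne 1 (by simp)
      obtain ⟨q, ξ, hq, q0, q1, hξ, hqd⟩ := exists_segment
        (q₁ := h 1 * (g₁ 1)⁻¹) (mul_ne_zero hh1 (inv_ne_zero hg₁1))
      obtain ⟨hqg, hqgn⟩ := wLp_mul_left hq hqd hg₁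
      have hend : h 1 = q 1 * g₁ 1 := by
        rw [q1, inv_mul_cancel_right₀ hg₁1]
      obtain ⟨T', hT', hT'h⟩ := exists_based_gauge hh hqg h0 (by simp [q0, g₁0]) hend
      have hTmem : T ∈ Γ := by
        rw [hΓ]
        intro f
        rw [hol_of_realises hne hpath hlip hT (fun x hx => scal_ne hx)
          (fun x y hx hy => dG_scal hx hy), proj_scal _ _ _ (hne f)]
      have hT'mem : T' ∈ Γ := by
        rw [hΓ]
        intro f
        rw [hol_of_realises hne hpath hlip hT' (fun x hx => hx) (fun x y _ _ => rfl)]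
        rfl
      refine (iInf_le _ (⟨T' * T, Γ.mul_mem hT'mem hTmem⟩ : Γ)).trans ?_
      simp only [IsometryEquiv.mul_apply]
      have e1 : dist f (T' (T f')) ≤ dist f (wLp g₁ hg₁) +
          dist (wLp g₁ hg₁) (T' (T (wLp g₂ hg₂))) +
          dist (T' (T (wLp g₂ hg₂))) (T' (T f')) := dist_triangle4 _ _ _ _
      have e2 : dist (T' (T (wLp g₂ hg₂))) (T' (T f')) < ε / 4 := by
        rw [T'.dist_eq, T.dist_eq, dist_comm, dist_eq_norm]
        exact hf₂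
      have e3 : dist (wLp g₁ hg₁) (T' (T (wLp g₂ hg₂))) ≤ dG (g₁ 1) (scal a b u (g₂ 1)) := by
        rw [hTg, hT'h, dist_eq_norm]
        refine hqgn.trans ?_
        rw [hξ, ← h1]
        have : g₁ 1 = 1 * g₁ 1 := (one_mul _).symm
        have e4 : dG (g₁ 1) (h 1) = dG (1 * g₁ 1) ((h 1 * (g₁ 1)⁻¹) * g₁ 1) := by
          rw [one_mul, inv_mul_cancel_right₀ hg₁1]
        rw [e4, dG_mul_right one_ne_zero (mul_ne_zero hh1 (inv_ne_zero hg₁1)) hg₁1]
      have e5 : dG (g₁ 1) (scal a b u (g₂ 1)) ≤ dG (hol f) (scal a b u (hol f')) + ε / 2 := by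
        have t1 := dG_triangle (g₁ 1) (hol f) (scal a b u (g₂ 1))
        have t2 := dG_triangle (hol f) (scal a b u (hol f')) (scal a b u (g₂ 1))
        have t3 : dG (g₁ 1) (hol f) < ε / 4 := by
          rw [← hpath g₁ hg₁ g₁0, dG_comm]
          exact (hlip _ _).trans_lt hf₁
        have t4 : dG (scal a b u (hol f')) (scal a b u (g₂ 1)) < ε / 4 := by
          rw [dG_scal (hne _) (hg₂.ne 1 (by simp)), ← hpath g₂ hg₂ g₂0]
          exact (hlip _ _).trans_lt hf₂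
        linarith
      have e6 : dist f (wLp g₁ hg₁) < ε / 4 := by
        rw [dist_eq_norm]; exact hf₁
      have e7 : dist f (T' (T f')) ≤ dR a b (proj a b (hol f)) (proj a b (hol f')) + ε := by
        rw [hu]
        linarith
      rw [edist_dist]
      refine (ENNReal.ofReal_le_ofReal e7).trans ?_
      rw [ENNReal.ofReal_add (dR_nonneg _ _ _ _) (by positivity), ENNReal.ofReal_coe_nnreal]

end H5

end Helper99.BQ
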