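import Pool.Agent.Helper99.BQ.Defs

/-! MP_986e36_gt, block E2: the exponential map is a `PreExp`. -/

open scoped Topology
open Set Metric

noncomputable section

namespace Helper99.BQ

section E2
variable {K : Type*} [Group K] [MetricSpace K] {E : Type*} [NormedAddCommGroup E]
  [InnerProductSpace ℝ E]

/-- coordinates of the exponential map in the chart -/
private theorem exp_coords (c : LocChart K E) (exp : E → K)
    (add : ∀ (X : E) (s t : ℝ), exp ((s + t) • X) = exp (s • X) * exp (t • X))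
    (lip : ∀ X Y : E, dist (exp X) (exp Y) ≤ ‖X - Y‖)
    (near : ∃ C' : ℝ, 0 ≤ C' ∧ ∃ r > 0, ∀ X : E, ‖X‖ < r → dist (exp X) (c.ψ X) ≤ C' * ‖X‖ ^ 2) :
    ∃ (f : E → E) (A ρ r₀ r₂ : ℝ), 0 ≤ A ∧ 0 < ρ ∧ 0 < r₀ ∧ 0 < r₂ ∧ r₂ ≤ r₀ ∧ r₂ ≤ c.δ ∧
      (∀ x y : E, ‖x‖ < r₀ → ‖y‖ < r₀ → c.ψ x = c.ψ y → x = y) ∧
      (∀ x y : E, ‖x‖ < r₂ → ‖y‖ < r₂ → ‖c.μ x y‖ < r₀) ∧
      (∀ X : E, ‖X‖ < ρ → exp X = c.ψ (f X)) ∧ (∀ X : E, ‖X‖ < ρ → ‖f X‖ < r₂) ∧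
      (∀ X : E, ‖X‖ < ρ → ‖f X‖ ≤ 2 * ‖X‖) ∧ f 0 = 0 ∧
      (∀ X Y : E, ‖X‖ < ρ → ‖Y‖ < ρ → ‖f X - f Y - (X - Y)‖ ≤ A * (‖X‖ + ‖Y‖) * ‖X - Y‖) := by
  have exp0 : exp 0 = 1 := by
    have := add 0 0 0
    simpa using this
  obtain ⟨r₀, hr₀, h₀⟩ := c.metric (1 / 2) (by norm_num)
  have hm : ∀ x y : E, ‖x‖ < r₀ → ‖y‖ < r₀ → ‖x - y‖ ≤ 2 * dist (c.ψ x) (c.ψ y) := by
    intro x y hx hy
    have := (abs_le.mp (h₀ x y hx hy)).1
    linarith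
  have hinj : ∀ x y : E, ‖x‖ < r₀ → ‖y‖ < r₀ → c.ψ x = c.ψ y → x = y := by
    intro x y hx hy h
    have := hm x y hx hy
    rw [h, dist_self, mul_zero] at this
    exact sub_eq_zero.mp (norm_eq_zero.mp (le_antisymm this (norm_nonneg _)))
  obtain ⟨C', hC', r₁, hr₁, near⟩ := near
  have hC := c.C_nonneg
  have hδ := c.δ_pos
  obtain ⟨r₂, hr₂, h20, h2δ, h21, h2C⟩ : ∃ r₂ : ℝ, 0 < r₂ ∧ r₂ ≤ r₀ / 4 ∧ r₂ ≤ c.δ ∧ r₂ ≤ 1 ∧
      r₂ ≤ r₀ / (8 * c.C + 1) := by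
    refine ⟨min (min (r₀ / 4) c.δ) (min 1 (r₀ / (8 * c.C + 1))), ?_, ?_, ?_, ?_, ?_⟩
    · refine lt_min (lt_min (by linarith) hδ) (lt_min one_pos (by positivity))
    · exact (min_le_left _ _).trans (min_le_left _ _)
    · exact (min_le_left _ _).trans (min_le_right _ _)
    · exact (min_le_right _ _).trans (min_le_left _ _)
    · exact (min_le_right _ _).trans (min_le_right _ _)
  have hμ : ∀ x y : E, ‖x‖ < r₂ → ‖y‖ < r₂ → ‖c.μ x y‖ < r₀ := by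
    intro x y hx hy
    have h := c.μ_lip x y 0 0 (hx.trans_le h2δ) (hy.trans_le h2δ) (by simpa using hδ)
      (by simpa using hδ)
    simp only [c.μ_zero, sub_zero, norm_zero, add_zero] at h
    have h1 : ‖c.μ x y‖ ≤ ‖c.μ x y - x - y‖ + ‖x‖ + ‖y‖ := by
      calc ‖c.μ x y‖ = ‖(c.μ x y - x - y) + x + y‖ := by congr 1; abel
        _ ≤ ‖(c.μ x y - x - y) + x‖ + ‖y‖ := norm_add_le _ _
        _ ≤ _ := by gcongr; exact norm_add_le _ _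
    have h2 : c.C * (‖x‖ + ‖y‖) * (‖x‖ + ‖y‖) ≤ c.C * (2 * r₂) * (2 * 1) := by
      have : ‖x‖ + ‖y‖ ≤ 2 * r₂ := by linarith
      have : ‖x‖ + ‖y‖ ≤ 2 * 1 := by linarith
      gcongr
    have h3 : 4 * c.C * r₂ ≤ r₀ / 2 := by
      have h4 : r₂ * (8 * c.C + 1) ≤ r₀ := (le_div_iff₀ (by positivity)).mp h2C
      nlinarith
    nlinarith [norm_nonneg x, norm_nonneg y]
  obtain ⟨ρ₁, hρ₁, hball⟩ := Metric.mem_nhds_iff.mp (c.nhds r₂ hr₂)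
  obtain ⟨ρ, hρ, hρ1, hρr1, hρr0⟩ : ∃ ρ : ℝ, 0 < ρ ∧ ρ ≤ ρ₁ ∧ ρ ≤ r₁ ∧ ρ ≤ r₀ := by
    refine ⟨min ρ₁ (min r₁ r₀), lt_min hρ₁ (lt_min hr₁ hr₀), min_le_left _ _,
      (min_le_right _ _).trans (min_le_left _ _), (min_le_right _ _).trans (min_le_right _ _)⟩
  have hd1 : ∀ X : E, dist (exp X) 1 ≤ ‖X‖ := by
    intro X
    have := lip X 0
    rwa [exp0, sub_zero] at this
  have hex : ∀ X : E, ∃ x : E, ‖X‖ < ρ → ‖x‖ < r₂ ∧ exp X = c.ψ x := by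
    intro X
    by_cases hX : ‖X‖ < ρ
    · have : exp X ∈ c.ψ '' ball 0 r₂ := hball (by
        rw [mem_ball]
        exact (hd1 X).trans_lt (hX.trans_le hρ1))
      obtain ⟨x, hx, hxe⟩ := this
      exact ⟨x, fun _ => ⟨by simpa using hx, hxe.symm⟩⟩
    · exact ⟨0, fun h => absurd h hX⟩
  choose f hf using hex
  have hr20 : r₂ ≤ r₀ := by linarith
  have hf2 : ∀ X : E, ‖X‖ < ρ → ‖f X‖ ≤ 2 * ‖X‖ := by
    intro X hX
    have h1 := hm (f X) 0 ((hf X hX).1.trans_le hr20) (by simpa using hr₀)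
    rw [sub_zero, c.ψ_zero, ← (hf X hX).2] at h1
    linarith [hd1 X]
  have hf0 : f 0 = 0 := by
    have := hf2 0 (by simpa using hρ)
    rw [norm_zero, mul_zero] at this
    exact norm_eq_zero.mp (le_antisymm this (norm_nonneg _))
  have hfX : ∀ X : E, ‖X‖ < ρ → ‖f X - X‖ ≤ 2 * C' * ‖X‖ ^ 2 := by
    intro X hX
    have h1 := hm (f X) X ((hf X hX).1.trans_le hr20) (hX.trans_le hρr0)
    rw [← (hf X hX).2] at h1
    have h2 := near X (hX.trans_le hρr1)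
    nlinarith
  have hfd : ∀ X Y : E, ‖X‖ < ρ → ‖Y‖ < ρ → ‖f X - f Y‖ ≤ 2 * ‖X - Y‖ := by
    intro X Y hX hY
    have h1 := hm (f X) (f Y) ((hf X hX).1.trans_le hr20) ((hf Y hY).1.trans_le hr20)
    rw [← (hf X hX).2, ← (hf Y hY).2] at h1
    linarith [lip X Y]
  have hhalf : ∀ X : E, ‖X‖ < ρ → f X = c.μ (f ((1 / 2 : ℝ) • X)) (f ((1 / 2 : ℝ) • X)) := by
    intro X hX
    have hX2 : ‖(1 / 2 : ℝ) • X‖ < ρ := by
      rw [norm_smul]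
      have : ‖(1 / 2 : ℝ)‖ = 1 / 2 := by norm_num
      rw [this]
      linarith [norm_nonneg X]
    have h2 := hf _ hX2
    apply hinj _ _ ((hf X hX).1.trans_le hr20) (hμ _ _ h2.1 h2.1)
    rw [← (hf X hX).2, ← c.mul _ _ (h2.1.trans_le h2δ) (h2.1.trans_le h2δ), ← h2.2, ← add]
    norm_num
  refine ⟨f, 8 * c.C, ρ, r₀, r₂, by positivity, hρ, hr₀, hr₂, hr20, h2δ, hinj, hμ,
    fun X hX => (hf X hX).2, fun X hX => (hf X hX).1, hf2, hf0, ?_⟩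
  intro X Y hX hY
  set M : ℝ := 4 * c.C * (‖X‖ + ‖Y‖) * ‖X - Y‖ with hM
  have hM0 : 0 ≤ M := by positivity
  have hsm : ∀ (Z : E) (n : ℕ), ‖Z‖ < ρ → ‖((1 / 2 : ℝ) ^ n) • Z‖ < ρ := by
    intro Z n hZ
    rw [norm_smul, norm_pow]
    have h1 : ‖(1 / 2 : ℝ)‖ = 1 / 2 := by norm_num
    rw [h1]
    have h2 : (1 / 2 : ℝ) ^ n ≤ 1 := pow_le_one₀ (by norm_num) (by norm_num)
    nlinarith [norm_nonneg Z]
  have hnsm : ∀ (Z : E) (n : ℕ), ‖((1 / 2 : ℝ) ^ n) • Z‖ = (1 / 2 : ℝ) ^ n * ‖Z‖ := by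
    intro Z n
    rw [norm_smul, norm_pow]
    have h1 : ‖(1 / 2 : ℝ)‖ = 1 / 2 := by norm_num
    rw [h1]
  have hstep : ∀ n : ℕ, ‖((2 : ℝ) ^ n) • (f (((1 / 2 : ℝ) ^ n) • X) - f (((1 / 2 : ℝ) ^ n) • Y)) -
      ((2 : ℝ) ^ (n + 1)) • (f (((1 / 2 : ℝ) ^ (n + 1)) • X) - f (((1 / 2 : ℝ) ^ (n + 1)) • Y))‖ ≤
      M * (1 / 2 : ℝ) ^ n := by
    intro n
    have hX0 := hsm X n hX
    have hY0 := hsm Y n hY
    have hX1 := hsm X (n + 1) hX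
    have hY1 := hsm Y (n + 1) hY
    have eX : (1 / 2 : ℝ) • (((1 / 2 : ℝ) ^ n) • X) = ((1 / 2 : ℝ) ^ (n + 1)) • X := by
      rw [smul_smul, pow_succ, mul_comm]
    have eY : (1 / 2 : ℝ) • (((1 / 2 : ℝ) ^ n) • Y) = ((1 / 2 : ℝ) ^ (n + 1)) • Y := by
      rw [smul_smul, pow_succ, mul_comm]
    have fX := hhalf _ hX0
    have fY := hhalf _ hY0
    rw [eX] at fX
    rw [eY] at fY
    set x := f (((1 / 2 : ℝ) ^ (n + 1)) • X) with hx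
    set y := f (((1 / 2 : ℝ) ^ (n + 1)) • Y) with hy
    have hxδ : ‖x‖ < c.δ := (hf _ hX1).1.trans_le h2δ
    have hyδ : ‖y‖ < c.δ := (hf _ hY1).1.trans_le h2δ
    have h1 := c.μ_lip x x y y hxδ hxδ hyδ hyδ
    have h2 : ((2 : ℝ) ^ n) • (f (((1 / 2 : ℝ) ^ n) • X) - f (((1 / 2 : ℝ) ^ n) • Y)) -
        ((2 : ℝ) ^ (n + 1)) • (x - y) =
        ((2 : ℝ) ^ n) • (c.μ x x - c.μ y y - (x - y) - (x - y)) := by
      rw [fX, fY, pow_succ, mul_smul, ← smul_sub, two_smul]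
      congr 1
      abel
    rw [h2, norm_smul, norm_pow, Real.norm_ofNat]
    have e3 : ∀ a : ℝ, 2 * ((1 / 2 : ℝ) ^ (n + 1) * a) = (1 / 2 : ℝ) ^ n * a := by
      intro a
      rw [pow_succ]
      ring
    have hxn : ‖x‖ ≤ (1 / 2 : ℝ) ^ n * ‖X‖ := by
      have := hf2 _ hX1
      rwa [hnsm, e3] at this
    have hyn : ‖y‖ ≤ (1 / 2 : ℝ) ^ n * ‖Y‖ := by
      have := hf2 _ hY1
      rwa [hnsm, e3] at this
    have hxyn : ‖x - y‖ ≤ (1 / 2 : ℝ) ^ n * ‖X - Y‖ := by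
      have := hfd _ _ hX1 hY1
      rwa [← smul_sub, hnsm, e3] at this
    have hp : (2 : ℝ) ^ n * (1 / 2 : ℝ) ^ n = 1 := by
      rw [← mul_pow]; norm_num
    calc (2 : ℝ) ^ n * ‖c.μ x x - c.μ y y - (x - y) - (x - y)‖
        ≤ (2 : ℝ) ^ n * (c.C * (‖x‖ + ‖x‖ + ‖y‖ + ‖y‖) * (‖x - y‖ + ‖x - y‖)) := by
          gcongr
      _ ≤ (2 : ℝ) ^ n * (c.C * ((1 / 2 : ℝ) ^ n * ‖X‖ + (1 / 2 : ℝ) ^ n * ‖X‖ +
            (1 / 2 : ℝ) ^ n * ‖Y‖ + (1 / 2 : ℝ) ^ n * ‖Y‖) *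
            ((1 / 2 : ℝ) ^ n * ‖X - Y‖ + (1 / 2 : ℝ) ^ n * ‖X - Y‖)) := by
          gcongr
      _ = ((2 : ℝ) ^ n * (1 / 2 : ℝ) ^ n) * (M * (1 / 2 : ℝ) ^ n) := by
          rw [hM]; ring
      _ = M * (1 / 2 : ℝ) ^ n := by rw [hp, one_mul]
  have hsum : ∀ n : ℕ, ‖(f X - f Y) -
      ((2 : ℝ) ^ n) • (f (((1 / 2 : ℝ) ^ n) • X) - f (((1 / 2 : ℝ) ^ n) • Y))‖ ≤
      2 * M * (1 - (1 / 2 : ℝ) ^ n) := by
    intro n
    induction n with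
    | zero => simp
    | succ n ih =>
      have h1 := norm_sub_le_norm_sub_add_norm_sub (f X - f Y)
        (((2 : ℝ) ^ n) • (f (((1 / 2 : ℝ) ^ n) • X) - f (((1 / 2 : ℝ) ^ n) • Y)))
        (((2 : ℝ) ^ (n + 1)) • (f (((1 / 2 : ℝ) ^ (n + 1)) • X) -
          f (((1 / 2 : ℝ) ^ (n + 1)) • Y)))
      have h2 := hstep n
      have h3 : (1 / 2 : ℝ) ^ (n + 1) = (1 / 2 : ℝ) ^ n / 2 := by rw [pow_succ]; ring
      calc _ ≤ _ := h1
        _ ≤ 2 * M * (1 - (1 / 2 : ℝ) ^ n) + M * (1 / 2 : ℝ) ^ n := add_le_add ih h2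
        _ = _ := by rw [h3]; ring
  have hlim : ∀ n : ℕ, ‖f X - f Y - (X - Y)‖ ≤
      2 * M + (2 * C' * (‖X‖ ^ 2 + ‖Y‖ ^ 2)) * (1 / 2 : ℝ) ^ n := by
    intro n
    have hp : (2 : ℝ) ^ n * (1 / 2 : ℝ) ^ n = 1 := by
      rw [← mul_pow]; norm_num
    have h1 := hfX _ (hsm X n hX)
    have h2 := hfX _ (hsm Y n hY)
    rw [hnsm] at h1 h2
    have h3 : ‖((2 : ℝ) ^ n) • (f (((1 / 2 : ℝ) ^ n) • X) - f (((1 / 2 : ℝ) ^ n) • Y)) - (X - Y)‖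
        ≤ (2 * C' * (‖X‖ ^ 2 + ‖Y‖ ^ 2)) * (1 / 2 : ℝ) ^ n := by
      have e : ((2 : ℝ) ^ n) • (f (((1 / 2 : ℝ) ^ n) • X) - f (((1 / 2 : ℝ) ^ n) • Y)) - (X - Y) =
          ((2 : ℝ) ^ n) • ((f (((1 / 2 : ℝ) ^ n) • X) - ((1 / 2 : ℝ) ^ n) • X) -
            (f (((1 / 2 : ℝ) ^ n) • Y) - ((1 / 2 : ℝ) ^ n) • Y)) := by
        have eX : X = ((2 : ℝ) ^ n) • (((1 / 2 : ℝ) ^ n) • X) := by
          rw [smul_smul, hp, one_smul]
        have eY : Y = ((2 : ℝ) ^ n) • (((1 / 2 : ℝ) ^ n) • Y) := by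
          rw [smul_smul, hp, one_smul]
        rw [sub_sub_sub_comm (f _), smul_sub _ (f _ - f _), smul_sub _ (((1 / 2 : ℝ) ^ n) • X),
          ← eX, ← eY]
      rw [e, norm_smul, norm_pow, Real.norm_ofNat]
      calc (2 : ℝ) ^ n * _ ≤ (2 : ℝ) ^ n * (2 * C' * ((1 / 2 : ℝ) ^ n * ‖X‖) ^ 2 +
            2 * C' * ((1 / 2 : ℝ) ^ n * ‖Y‖) ^ 2) := by
            gcongr
            exact (norm_sub_le _ _).trans (add_le_add h1 h2)
        _ = ((2 : ℝ) ^ n * (1 / 2 : ℝ) ^ n) *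
            ((2 * C' * (‖X‖ ^ 2 + ‖Y‖ ^ 2)) * (1 / 2 : ℝ) ^ n) := by ring
        _ = _ := by rw [hp, one_mul]
    have h4 := hsum n
    have h5 : 2 * M * (1 - (1 / 2 : ℝ) ^ n) ≤ 2 * M := by
      have : 0 ≤ (1 / 2 : ℝ) ^ n := by positivity
      nlinarith
    calc _ ≤ _ := norm_sub_le_norm_sub_add_norm_sub _
            (((2 : ℝ) ^ n) • (f (((1 / 2 : ℝ) ^ n) • X) - f (((1 / 2 : ℝ) ^ n) • Y))) _
      _ ≤ _ := add_le_add (h4.trans h5) h3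
  have htend : Filter.Tendsto (fun n : ℕ => 2 * M + (2 * C' * (‖X‖ ^ 2 + ‖Y‖ ^ 2)) *
      (1 / 2 : ℝ) ^ n) Filter.atTop (𝓝 (2 * M + (2 * C' * (‖X‖ ^ 2 + ‖Y‖ ^ 2)) * 0)) := by
    refine Filter.Tendsto.const_add _ (Filter.Tendsto.const_mul _ ?_)
    exact tendsto_pow_atTop_nhds_zero_of_lt_one (by norm_num) (by norm_num)
  have hfin := ge_of_tendsto' htend hlim
  rw [mul_zero, add_zero] at hfin
  calc _ ≤ _ := hfin
    _ = _ := by rw [hM]; ring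

/-- E2 -/
theorem preExp_of_exp [FiniteDimensional ℝ E] (hK : BiInv K) (c : LocChart K E) (exp : E → K)
    (add : ∀ (X : E) (s t : ℝ), exp ((s + t) • X) = exp (s • X) * exp (t • X))
    (lip : ∀ X Y : E, dist (exp X) (exp Y) ≤ ‖X - Y‖)
    (near : ∃ C' : ℝ, 0 ≤ C' ∧ ∃ r > 0, ∀ X : E, ‖X‖ < r → dist (exp X) (c.ψ X) ≤ C' * ‖X‖ ^ 2) :
    ∃ e : PreExp K E, e.exp = exp := by
  have exp0 : exp 0 = 1 := by
    have := add 0 0 0
    simpa using this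
  have hd1 : ∀ X : E, dist (exp X) 1 ≤ ‖X‖ := by
    intro X
    have := lip X 0
    rwa [exp0, sub_zero] at this
  have hcomplete : CompleteSpace E := FiniteDimensional.complete ℝ E
  obtain ⟨f, A, ρ, r₀, r₂, hA, hρ, hr₀, hr₂, hr20, hr2δ, hinj, hμ, hfψ, hfr2, hf2, hf0, hfl⟩ :=
    exp_coords c exp add lip near
  have hC := c.C_nonneg
  -- lower bound
  have lower : ∀ ε > 0, ∃ r > 0, ∀ X Y : E, ‖X‖ < r → ‖Y‖ < r →
      (1 - ε) * ‖X - Y‖ ≤ dist (exp X) (exp Y) := by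
    intro ε hε
    by_cases hε1 : 1 ≤ ε
    · refine ⟨1, one_pos, fun X Y _ _ => ?_⟩
      have : (1 - ε) * ‖X - Y‖ ≤ 0 := mul_nonpos_of_nonpos_of_nonneg (by linarith) (norm_nonneg _)
      exact this.trans dist_nonneg
    push Not at hε1
    obtain ⟨r₃, hr₃, h₃⟩ := c.metric (ε / 2) (by linarith)
    refine ⟨min ρ (min (r₃ / 2) (ε / (4 * (A + 1)))), lt_min hρ (lt_min (by linarith)
      (by positivity)), ?_⟩
    intro X Y hX hY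
    have hXρ : ‖X‖ < ρ := hX.trans_le (min_le_left _ _)
    have hYρ : ‖Y‖ < ρ := hY.trans_le (min_le_left _ _)
    have hX3 : ‖X‖ < r₃ / 2 := hX.trans_le ((min_le_right _ _).trans (min_le_left _ _))
    have hY3 : ‖Y‖ < r₃ / 2 := hY.trans_le ((min_le_right _ _).trans (min_le_left _ _))
    have hXA : ‖X‖ < ε / (4 * (A + 1)) := hX.trans_le ((min_le_right _ _).trans (min_le_right _ _))
    have hYA : ‖Y‖ < ε / (4 * (A + 1)) := hY.trans_le ((min_le_right _ _).trans (min_le_right _ _))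
    rw [lt_div_iff₀ (by positivity)] at hXA hYA
    have h1 := (abs_le.mp (h₃ (f X) (f Y) (by linarith [hf2 X hXρ]) (by linarith [hf2 Y hYρ]))).1
    rw [← hfψ X hXρ, ← hfψ Y hYρ] at h1
    have h2 := hfl X Y hXρ hYρ
    have h3 : A * (‖X‖ + ‖Y‖) ≤ ε / 2 := by
      nlinarith [norm_nonneg X, norm_nonneg Y]
    have h4 : ‖X - Y‖ ≤ ‖f X - f Y - (X - Y)‖ + ‖f X - f Y‖ := by
      have : X - Y = (f X - f Y) - (f X - f Y - (X - Y)) := by abel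
      calc ‖X - Y‖ = ‖(f X - f Y) - (f X - f Y - (X - Y))‖ := by rw [← this]
        _ ≤ ‖f X - f Y‖ + ‖f X - f Y - (X - Y)‖ := norm_sub_le _ _
        _ = _ := add_comm _ _
    have h5 : A * (‖X‖ + ‖Y‖) * ‖X - Y‖ ≤ ε / 2 * ‖X - Y‖ := by gcongr
    have h6 : (1 - ε / 2) * ‖X - Y‖ ≤ ‖f X - f Y‖ := by linarith
    have h7 : (1 - ε / 2) * ((1 - ε / 2) * ‖X - Y‖) ≤ (1 - ε / 2) * ‖f X - f Y‖ :=
      mul_le_mul_of_nonneg_left h6 (by linarith)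
    have h8 : (1 - ε) * ‖X - Y‖ ≤ (1 - ε / 2) * ((1 - ε / 2) * ‖X - Y‖) := by
      nlinarith [norm_nonneg (X - Y), mul_nonneg (sq_nonneg ε) (norm_nonneg (X - Y))]
    linarith
  -- neighbourhoods
  have nhds : ∀ r > 0, exp '' ball 0 r ∈ 𝓝 (1 : K) := by
    intro r hr
    obtain ⟨s, hs, hsr, hsρ, hsA⟩ : ∃ s : ℝ, 0 < s ∧ s < r ∧ s < ρ ∧ A * (s + s) ≤ 1 / 4 := by
      refine ⟨min (r / 2) (min (ρ / 2) (1 / (8 * (A + 1)))), ?_, ?_, ?_, ?_⟩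
      · exact lt_min (by linarith) (lt_min (by linarith) (by positivity))
      · exact (min_le_left _ _).trans_lt (by linarith)
      · exact ((min_le_right _ _).trans (min_le_left _ _)).trans_lt (by linarith)
      · set s := min (r / 2) (min (ρ / 2) (1 / (8 * (A + 1)))) with hs
        have h1 : s ≤ 1 / (8 * (A + 1)) := (min_le_right _ _).trans (min_le_right _ _)
        have h0 : 0 < s := lt_min (by linarith) (lt_min (by linarith) (by positivity))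
        rw [le_div_iff₀ (by positivity)] at h1
        nlinarith
    have happ : ApproximatesLinearOn f (ContinuousLinearMap.id ℝ E) (closedBall 0 s)
        (1 / 4 : NNReal) := by
      intro X hX Y hY
      rw [mem_closedBall, dist_zero_right] at hX hY
      have h1 := hfl X Y (hX.trans_lt hsρ) (hY.trans_lt hsρ)
      rw [ContinuousLinearMap.id_apply]
      refine h1.trans ?_
      have : A * (‖X‖ + ‖Y‖) ≤ ((1 / 4 : NNReal) : ℝ) := by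
        refine le_trans ?_ (le_trans hsA (by norm_num))
        gcongr
      gcongr
    let R : (ContinuousLinearMap.id ℝ E).NonlinearRightInverse :=
      ⟨id, 1, by intro y; simp, by intro y; simp⟩
    have hsurj := happ.surjOn_closedBall_of_nonlinearRightInverse R (ε := s) (b := 0) hs.le
      subset_rfl
    refine Filter.mem_of_superset (c.nhds (s / 2) (by linarith)) ?_
    rintro _ ⟨y, hy, rfl⟩
    rw [mem_ball, dist_zero_right] at hy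
    have hy' : y ∈ closedBall (f 0) ((((R.nnnorm : ℝ))⁻¹ - ((1 / 4 : NNReal) : ℝ)) * s) := by
      rw [mem_closedBall, hf0, dist_zero_right]
      have : (((R.nnnorm : ℝ))⁻¹ - ((1 / 4 : NNReal) : ℝ)) = 3 / 4 := by
        simp only [R]
        norm_num
      rw [this]
      linarith
    obtain ⟨X, hX, hXy⟩ := hsurj hy'
    rw [mem_closedBall, dist_zero_right] at hX
    refine ⟨X, ?_, ?_⟩
    · rw [mem_ball, dist_zero_right]; linarith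
    · rw [hfψ X (by linarith), hXy]
  -- first order BCH
  have bch : ∀ ε > 0, ∃ r > 0, ∀ X W : E, ‖X‖ < r → ‖W‖ < r →
      ∃ Z : E, exp Z = exp X * exp W ∧ ‖Z - X - W‖ ≤ ε * ‖W‖ := by
    intro ε hε
    obtain ⟨r₄, hr₄, h₄⟩ := lower (1 / 2) (by norm_num)
    obtain ⟨ρ₅, hρ₅, hball⟩ := Metric.mem_nhds_iff.mp (nhds (min r₄ ρ) (lt_min hr₄ hρ))
    obtain ⟨r, hr, hrρ, hr4, hr5, hrA⟩ : ∃ r : ℝ, 0 < r ∧ r ≤ ρ ∧ r ≤ r₄ ∧ r ≤ ρ₅ / 2 ∧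
        r ≤ ε / (11 * A + 12 * c.C + 1) := by
      refine ⟨min (min ρ r₄) (min (ρ₅ / 2) (ε / (11 * A + 12 * c.C + 1))), ?_, ?_, ?_, ?_, ?_⟩
      · exact lt_min (lt_min hρ hr₄) (lt_min (by linarith) (by positivity))
      · exact (min_le_left _ _).trans (min_le_left _ _)
      · exact (min_le_left _ _).trans (min_le_right _ _)
      · exact (min_le_right _ _).trans (min_le_left _ _)
      · exact (min_le_right _ _).trans (min_le_right _ _)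
    refine ⟨r, hr, fun X W hX hW => ?_⟩
    have hXρ : ‖X‖ < ρ := hX.trans_le hrρ
    have hWρ : ‖W‖ < ρ := hW.trans_le hrρ
    have hXW1 : dist (exp X * exp W) (exp X) ≤ ‖W‖ := by
      have h1 := hK.left (exp X) (exp W) 1
      rw [mul_one] at h1
      rw [h1]
      exact hd1 W
    have hXW : dist (exp X * exp W) 1 ≤ ‖X‖ + ‖W‖ := by
      have := dist_triangle (exp X * exp W) (exp X) 1
      linarith [hd1 X]
    have hmem : exp X * exp W ∈ exp '' ball 0 (min r₄ ρ) := hball (by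
      rw [mem_ball]; linarith)
    obtain ⟨Z, hZ, hZe⟩ := hmem
    rw [mem_ball, dist_zero_right] at hZ
    have hZ4 : ‖Z‖ < r₄ := hZ.trans_le (min_le_left _ _)
    have hZρ : ‖Z‖ < ρ := hZ.trans_le (min_le_right _ _)
    refine ⟨Z, hZe, ?_⟩
    have hZ1 : ‖Z‖ ≤ 2 * (‖X‖ + ‖W‖) := by
      have := h₄ Z 0 hZ4 (by simpa using hr₄)
      rw [sub_zero, exp0, hZe] at this
      linarith
    have hZX : ‖Z - X‖ ≤ 2 * ‖W‖ := by
      have := h₄ Z X hZ4 (hX.trans_le hr4)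
      rw [hZe] at this
      linarith
    have hfZ : f Z = c.μ (f X) (f W) := by
      apply hinj _ _ ((hfr2 Z hZρ).trans_le hr20) (hμ _ _ (hfr2 X hXρ) (hfr2 W hWρ))
      rw [← hfψ Z hZρ, hZe, hfψ X hXρ, hfψ W hWρ,
        c.mul _ _ ((hfr2 X hXρ).trans_le hr2δ) ((hfr2 W hWρ).trans_le hr2δ)]
    have h0r2 : ‖(0 : E)‖ < r₂ := by simpa using hr₂
    have hμ0 : c.μ (f X) 0 = f X := by
      apply hinj _ _ (hμ _ _ (hfr2 X hXρ) h0r2) ((hfr2 X hXρ).trans_le hr20)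
      rw [← c.mul _ _ ((hfr2 X hXρ).trans_le hr2δ) (h0r2.trans_le hr2δ), c.ψ_zero, mul_one]
    have h1 := c.μ_lip (f X) (f W) (f X) 0 ((hfr2 X hXρ).trans_le hr2δ)
      ((hfr2 W hWρ).trans_le hr2δ) ((hfr2 X hXρ).trans_le hr2δ) (h0r2.trans_le hr2δ)
    rw [← hfZ, hμ0] at h1
    simp only [sub_self, sub_zero, norm_zero, add_zero, zero_add] at h1
    have h2 := hfl Z X hZρ hXρ
    have h3 := hfl W 0 hWρ (by simpa using hρ)
    simp only [hf0, sub_zero, norm_zero, add_zero] at h3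
    have hfX2 := hf2 X hXρ
    have hfW2 := hf2 W hWρ
    have e : Z - X - W = (f Z - f X - f W) - (f Z - f X - (Z - X)) + (f W - W) := by abel
    have h4 : ‖Z - X - W‖ ≤ ‖f Z - f X - f W‖ + ‖f Z - f X - (Z - X)‖ + ‖f W - W‖ := by
      calc ‖Z - X - W‖ = ‖(f Z - f X - f W) - (f Z - f X - (Z - X)) + (f W - W)‖ := by rw [← e]
        _ ≤ ‖(f Z - f X - f W) - (f Z - f X - (Z - X))‖ + ‖f W - W‖ := norm_add_le _ _
        _ ≤ _ := by gcongr; exact norm_sub_le _ _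
    have h5 : ‖f Z - f X - f W‖ ≤ 12 * c.C * r * ‖W‖ := by
      calc ‖f Z - f X - f W‖ ≤ c.C * (‖f X‖ + ‖f W‖ + ‖f X‖) * ‖f W‖ := h1
        _ ≤ c.C * (2 * r + 2 * r + 2 * r) * (2 * ‖W‖) := by
            gcongr <;> linarith
        _ = _ := by ring
    have h6 : ‖f Z - f X - (Z - X)‖ ≤ 10 * A * r * ‖W‖ := by
      calc ‖f Z - f X - (Z - X)‖ ≤ A * (‖Z‖ + ‖X‖) * ‖Z - X‖ := h2
        _ ≤ A * (4 * r + r) * (2 * ‖W‖) := by
            gcongr <;> linarith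
        _ = _ := by ring
    have h7 : ‖f W - W‖ ≤ A * r * ‖W‖ := by
      calc ‖f W - W‖ ≤ A * ‖W‖ * ‖W‖ := h3
        _ ≤ _ := by gcongr
    have h8 : (11 * A + 12 * c.C) * r ≤ ε := by
      rw [le_div_iff₀ (by positivity)] at hrA
      nlinarith
    calc ‖Z - X - W‖ ≤ 12 * c.C * r * ‖W‖ + 10 * A * r * ‖W‖ + A * r * ‖W‖ := by linarith
      _ = ((11 * A + 12 * c.C) * r) * ‖W‖ := by ring
      _ ≤ ε * ‖W‖ := by gcongr
  exact ⟨⟨exp, add, lip, lower, nhds, bch⟩, rfl⟩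

end E2

end Helper99.BQ
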